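import Mathlib
import Pool.Agent.MP_1f8704_gt.Defs

-- part MP_1f8704_gt.Master
section

/-!
The master lemma: any surjection from a second countable regular space can be completed, after
adding noise that vanishes along suitable free ultrafilters, to a bijection onto a product with
`(ℝ^ω)^ω` whose second component is continuous.
-/

open Set Topology Filter Cardinal

namespace Pool.Agent.MP_1f8704_gt

/-- a homeomorphism of the line with `(-1, 1)` -/
noncomputable def sg : ℝ ≃ₜ Ioo (-1 : ℝ) 1 := (orderIsoIooNegOneOne ℝ).toHomeomorph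

/-- the same map with real values -/
noncomputable def sr (x : ℝ) : ℝ := sg x

theorem continuous_sr : Continuous sr := continuous_subtype_val.comp sg.continuous

theorem sr_mem (x : ℝ) : sr x ∈ Ioo (-1 : ℝ) 1 := (sg x).2

theorem sr_injective : Function.Injective sr := Subtype.val_injective.comp sg.injective

theorem range_sr : range sr = Ioo (-1 : ℝ) 1 := by
  ext y
  constructor
  · rintro ⟨x, rfl⟩
    exact sr_mem x
  · intro hy
    exact ⟨sg.symm ⟨y, hy⟩, by simp [sr]⟩

theorem clamp_mem (c e u : ℝ) :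
    max (sr c - |e|) (min (sr u) (sr c + |e|)) ∈ Ioo (-1 : ℝ) 1 := by
  have h1 := sr_mem c
  have h2 := sr_mem u
  have h3 := abs_nonneg e
  constructor
  · refine lt_max_of_lt_right (lt_min h2.1 (by linarith [h1.1]))
  · refine max_lt (by linarith [h1.2]) (min_lt_of_left_lt h2.2)

/-- move from `c` towards `u`, by at most `|e|` in the bounded coordinate -/
noncomputable def tau (c e u : ℝ) : ℝ :=
  sg.symm ⟨max (sr c - |e|) (min (sr u) (sr c + |e|)), clamp_mem c e u⟩

theorem sr_tau (c e u : ℝ) : sr (tau c e u) = max (sr c - |e|) (min (sr u) (sr c + |e|)) := by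
  simp [sr, tau]

theorem continuous_tau {X : Type*} [TopologicalSpace X] {c e u : X → ℝ} (hc : Continuous c)
    (he : Continuous e) (hu : Continuous u) : Continuous fun x => tau (c x) (e x) (u x) := by
  refine sg.symm.continuous.comp (Continuous.subtype_mk ?_ _)
  have := continuous_sr
  fun_prop

theorem abs_sr_tau_sub (c e u : ℝ) : |sr (tau c e u) - sr c| ≤ |e| := by
  rw [sr_tau, abs_le]
  have h3 := abs_nonneg e
  constructor
  · linarith [le_max_left (sr c - |e|) (min (sr u) (sr c + |e|))]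
  · have : max (sr c - |e|) (min (sr u) (sr c + |e|)) ≤ sr c + |e| :=
      max_le (by linarith) (min_le_right _ _)
    linarith

theorem tau_self (c v : ℝ) : tau c (sr v - sr c) v = v := by
  apply sr_injective
  rw [sr_tau, min_eq_left (by linarith [le_abs_self (sr v - sr c)]),
    max_eq_right (by linarith [neg_abs_le (sr v - sr c)])]

/-- index set of the coordinates -/
abbrev Ix : Type := ℕ × ℕ

theorem exists_inj (A : Type) [TopologicalSpace A] [SecondCountableTopology A] [T3Space A] :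
    ∃ g : A → (ℕ → Icc (-1 : ℝ) 1), Continuous g ∧ Function.Injective g := by
  obtain ⟨f, hf⟩ := TopologicalSpace.exists_embedding_l_infty A
  refine ⟨fun a n => ⟨sr (f a n), Ioo_subset_Icc_self (sr_mem _)⟩, ?_, ?_⟩
  · refine continuous_pi fun n => Continuous.subtype_mk (continuous_sr.comp ?_) _
    exact (continuous_eval_const n).comp hf.continuous
  · intro a b hab
    apply hf.injective
    ext n
    exact sr_injective (congrArg (fun x : Icc (-1 : ℝ) 1 => (x : ℝ)) (congrFun hab n))

theorem mk_le_continuum (A : Type) [TopologicalSpace A] [SecondCountableTopology A] [T3Space A] :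
    #A ≤ 𝔠 := by
  obtain ⟨g, -, hg⟩ := exists_inj A
  refine (mk_le_of_injective hg).trans ?_
  rw [← Cardinal.power_def, mk_Icc_real (by norm_num), mk_nat, continuum_power_aleph0]

theorem denseRange_coe (K : Type) [TopologicalSpace K] [T2Space K] [NormalSpace K] :
    DenseRange (fun f : C(K, ℝ) => (f : K → ℝ)) := by
  intro β
  rw [mem_closure_iff_nhds]
  intro V hV
  rw [nhds_pi, Filter.mem_pi] at hV
  obtain ⟨I, hI, t, ht, hsub⟩ := hV
  have := hI.to_subtype
  obtain ⟨g, hg⟩ := ContinuousMap.exists_restrict_eq hI.isClosed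
    (⟨fun x : I => β x, continuous_of_discreteTopology⟩ : C(I, ℝ))
  refine ⟨g, hsub fun i hi => ?_, g, rfl⟩
  have : g i = β i := congrArg (fun h : C(I, ℝ) => h ⟨i, hi⟩) hg
  rw [this]
  exact mem_of_mem_nhds (ht i)

/-- every function into `[-1, 1]` is an ultrafilter limit of a fixed sequence of continuous
functions -/
theorem exists_gamma (A : Type) [TopologicalSpace A] [SecondCountableTopology A] [T3Space A] :
    ∃ γ : A → Ix → ℝ, Continuous γ ∧ ∀ β : A → ℝ, (∀ a, β a ∈ Icc (-1 : ℝ) 1) →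
      ∃ U : Ultrafilter Ix, (U : Filter Ix) ≤ cofinite ∧
        ∀ a, Tendsto (fun n => sr (γ a n)) U (𝓝 (β a)) := by
  obtain ⟨g, hg, hinj⟩ := exists_inj A
  let K := ℕ → Icc (-1 : ℝ) 1
  let s : ℕ → C(K, ℝ) := TopologicalSpace.denseSeq C(K, ℝ)
  have hs : DenseRange (fun n => (s n : K → ℝ)) :=
    (denseRange_coe K).comp (TopologicalSpace.denseRange_denseSeq _)
      (continuous_pi fun x => continuous_eval_const x)
  refine ⟨fun a n => s n.1 (g a), continuous_pi fun n => (s n.1).continuous.comp hg,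
    fun β hβ => ?_⟩
  let Φ : (K → ℝ) → (A → ℝ) := fun f a => sr (f (g a))
  have hΦ : Continuous Φ := continuous_pi fun a => continuous_sr.comp (continuous_apply _)
  have h1 : β ∈ closure (range Φ) := by
    have : Set.pi univ (fun _ : A => Ioo (-1 : ℝ) 1) ⊆ range Φ := by
      intro b hb
      have hb' : ∀ a, ∃ x, sr x = b a := fun a => by
        have := hb a trivial
        rwa [← range_sr] at this
      choose x hx using hb'
      refine ⟨Function.extend g x 0, funext fun a => ?_⟩
      simp only [Φ, hinj.extend_apply, hx]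
    refine closure_mono this ?_
    rw [closure_pi_set]
    intro a _
    rw [closure_Ioo (by norm_num)]
    exact hβ a
  have h2 : β ∈ closure (range fun n => Φ (s n)) := by
    have : range Φ ⊆ closure (range fun n => Φ (s n)) := by
      rintro _ ⟨f, rfl⟩
      exact map_mem_closure hΦ (hs f) (by rintro _ ⟨n, rfl⟩; exact ⟨n, rfl⟩)
    exact closure_minimal this isClosed_closure h1
  have h3 : (comap (fun n : Ix => Φ (s n.1)) (𝓝 β) ⊓ cofinite).NeBot := by
    rw [Filter.inf_neBot_iff]
    intro S hS T hT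
    obtain ⟨V, hV, hVS⟩ := mem_comap.1 hS
    obtain ⟨_, hm, ⟨m, rfl⟩⟩ := mem_closure_iff_nhds.1 h2 V hV
    have hinf : (range fun k : ℕ => ((m, k) : Ix)).Infinite :=
      infinite_range_of_injective fun a b h => (Prod.ext_iff.1 h).2
    obtain ⟨_, ⟨k, rfl⟩, hk⟩ := hinf.exists_notMem_finite (mem_cofinite.1 hT)
    exact ⟨(m, k), hVS hm, not_not.1 hk⟩
  obtain ⟨U, hU⟩ := Ultrafilter.exists_le (comap (fun n : Ix => Φ (s n.1)) (𝓝 β) ⊓ cofinite)
  refine ⟨U, hU.trans inf_le_right, fun a => ?_⟩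
  have h4 : Tendsto (fun n : Ix => Φ (s n.1)) U (𝓝 β) :=
    tendsto_iff_comap.2 (hU.trans inf_le_left)
  exact tendsto_pi_nhds.1 h4 a

/-- a function that is bijective onto `[-1, 1]` on each fattened fibre -/
theorem exists_beta {B L : Type} (hB : #B ≤ 𝔠) (r : B → L) :
    ∃ β : B × ℝ → ℝ, (∀ p, β p ∈ Icc (-1 : ℝ) 1) ∧
      (∀ p q, r p.1 = r q.1 → β p = β q → p = q) ∧
      ∀ b, ∀ l ∈ Icc (-1 : ℝ) 1, ∃ p, r p.1 = r b ∧ β p = l := by
  have h : ∀ l : range r, Nonempty ({p : B × ℝ // r p.1 = l} ≃ Icc (-1 : ℝ) 1) := by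
    rintro ⟨_, b, rfl⟩
    rw [← Cardinal.eq, mk_Icc_real (by norm_num)]
    apply le_antisymm
    · refine (mk_subtype_le _).trans ?_
      rw [mk_prod, lift_id, lift_id, mk_real]
      calc #B * 𝔠 ≤ 𝔠 * 𝔠 := by gcongr
        _ = 𝔠 := continuum_mul_self
    · rw [← mk_real]
      exact mk_le_of_injective (f := fun t : ℝ => (⟨(b, t), rfl⟩ : {p : B × ℝ // r p.1 = r b}))
        fun t t' htt => (Prod.ext_iff.1 (congrArg Subtype.val htt)).2
  let e := fun l : range r => (h l).some
  have key : ∀ (p : B × ℝ) (l : range r) (hp : r p.1 = l),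
      (e ⟨r p.1, p.1, rfl⟩ ⟨p, rfl⟩ : ℝ) = e l ⟨p, hp⟩ := by
    rintro p ⟨l, hl⟩ hp
    obtain rfl : r p.1 = l := hp
    rfl
  refine ⟨fun p => e ⟨r p.1, p.1, rfl⟩ ⟨p, rfl⟩, fun p => (e _ _).2, fun p q hpq hβ => ?_,
    fun b l hl => ?_⟩
  · simp only at hβ
    rw [key p ⟨r q.1, q.1, rfl⟩ hpq] at hβ
    exact congrArg Subtype.val ((e _).injective (Subtype.ext hβ))
  · obtain ⟨⟨p, hp⟩, hpe⟩ := (e ⟨r b, b, rfl⟩).surjective ⟨l, hl⟩
    refine ⟨p, hp, ?_⟩
    simp only
    rw [key p ⟨r b, b, rfl⟩ hp, hpe]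

/-- sequences tending to zero along a filter -/
def CF {ι : Type} (F : Filter ι) : Type := {e : ι → ℝ // Tendsto e F (𝓝 0)}

instance {ι : Type} (F : Filter ι) : TopologicalSpace (CF F) :=
  inferInstanceAs (TopologicalSpace {e : ι → ℝ // Tendsto e F (𝓝 0)})

/-- one block of noise -/
abbrev Noise (U : Ultrafilter Ix) : Type := (ℝ × CF (U : Filter Ix)) × (Ix → ℝ)

theorem tendsto_tau {F : Filter Ix} {c e u : Ix → ℝ} {l : ℝ} (he : Tendsto e F (𝓝 0))
    (hc : Tendsto (fun n => sr (c n)) F (𝓝 l)) :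
    Tendsto (fun n => sr (tau (c n) (e n) (u n))) F (𝓝 l) := by
  have h1 : Tendsto (fun n => sr (tau (c n) (e n) (u n)) - sr (c n)) F (𝓝 0) := by
    refine squeeze_zero_norm (fun n => abs_sr_tau_sub _ _ _) ?_
    simpa using he.abs
  simpa using h1.add hc

/-- the parameter space of one step -/
abbrev Par : Type := (Ix → ℝ) × (Ix → ℝ) × (Ix → ℝ)

/-- the data recorded at one step -/
noncomputable def rec1 (U : Ultrafilter Ix) (b : Par) : (Ix → ℝ) × (Ix → ℝ) × Prop :=
  (b.1, fun n => tau (b.1 n) (b.2.1 n) (b.2.2 n), Tendsto b.2.1 U (𝓝 0))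

theorem master (A L : Type) [TopologicalSpace A] [SecondCountableTopology A] [T3Space A]
    (r : A → L) (hr : Function.Surjective r) :
    ∃ U : ℕ → Ultrafilter Ix, (∀ i, (U i : Filter Ix) ≤ cofinite) ∧
      ∃ w : (A × ℝ) × (∀ i, Noise (U i)) → (ℕ → Ix → ℝ), Continuous w ∧
        Function.Bijective (fun q : (A × ℝ) × (∀ i, Noise (U i)) => (r q.1.1, w q)) := by
  obtain ⟨γA, hγA, hA⟩ := exists_gamma (A × ℝ)
  obtain ⟨βA, hβA1, hβA2, hβA3⟩ := exists_beta (mk_le_continuum A) r
  obtain ⟨U0, hU0, hU0'⟩ := hA βA hβA1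
  obtain ⟨γ, hγ, hP⟩ := exists_gamma (Par × ℝ)
  choose β hβ1 hβ2 hβ3 using fun U => exists_beta (mk_le_continuum Par) (rec1 U)
  choose Ψ hΨ hΨ' using fun U => hP (β U) (hβ1 U)
  obtain ⟨U, rfl, hUs⟩ : ∃ U : ℕ → Ultrafilter Ix, U 0 = U0 ∧ ∀ i, U (i + 1) = Ψ (U i) :=
    ⟨fun i => Nat.rec U0 (fun _ V => Ψ V) i, rfl, fun _ => rfl⟩
  have hUc : ∀ i : ℕ, (U i).toFilter ≤ cofinite := by
    intro i
    cases i with
    | zero => exact hU0
    | succ i => rw [hUs]; exact hΨ _
  have hΨU : ∀ i p, Tendsto (fun n => sr (γ p n)) (U (i + 1)).toFilter (𝓝 (β (U i) p)) := by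
    intro i p
    rw [hUs]
    exact hΨ' (U i) p
  let pk : ∀ i, (Ix → ℝ) → Noise (U i) → Par × ℝ := fun i c ν => ((c, ν.1.2.1, ν.2), ν.1.1)
  let cs : (A × ℝ) × (∀ i, Noise (U i)) → ℕ → (Ix → ℝ) := fun q i =>
    Nat.rec (γA q.1) (fun i c => γ (pk i c (q.2 i))) i
  have hcs0 : ∀ q, cs q 0 = γA q.1 := fun _ => rfl
  have hcs : ∀ q i, cs q (i + 1) = γ (pk i (cs q i) (q.2 i)) := fun _ _ => rfl
  have hval : ∀ i, Continuous fun q : (A × ℝ) × (∀ i, Noise (U i)) => (q.2 i).1.2.1 := fun i =>
    continuous_subtype_val.comp (by fun_prop)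
  have hcsc : ∀ i, Continuous fun q => cs q i := by
    intro i
    induction i with
    | zero => exact hγA.comp continuous_fst
    | succ i ih =>
      simp only [hcs, pk]
      refine hγ.comp ?_
      have := hval i
      fun_prop
  let w : (A × ℝ) × (∀ i, Noise (U i)) → (ℕ → Ix → ℝ) := fun q i n =>
    tau (cs q i n) ((q.2 i).1.2.1 n) ((q.2 i).2 n)
  have hlim0 : ∀ q, Tendsto (fun n => sr (w q 0 n)) (U 0).toFilter (𝓝 (βA q.1)) := fun q =>
    tendsto_tau (F := (U 0).toFilter) (q.2 0).1.2.2 (hU0' q.1)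
  have hlim : ∀ q i, Tendsto (fun n => sr (w q (i + 1) n)) (U (i + 1)).toFilter
      (𝓝 (β (U i) (pk i (cs q i) (q.2 i)))) := fun q i =>
    tendsto_tau (F := (U (i + 1)).toFilter) (q.2 (i + 1)).1.2.2 (hΨU i _)
  refine ⟨U, hUc, w, ?_, ?_, ?_⟩
  · refine continuous_pi fun i => continuous_pi fun n => continuous_tau ?_ ?_ ?_
    · exact (continuous_apply n).comp (hcsc i)
    · exact (continuous_apply n).comp (hval i)
    · fun_prop
  · intro q q' hqq
    have h1 : r q.1.1 = r q'.1.1 := (Prod.ext_iff.1 hqq).1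
    have h2 : w q = w q' := (Prod.ext_iff.1 hqq).2
    have h3 : q.1 = q'.1 := hβA2 _ _ h1 (tendsto_nhds_unique (hlim0 q) (h2 ▸ hlim0 q'))
    have step : ∀ i, cs q i = cs q' i → pk i (cs q i) (q.2 i) = pk i (cs q' i) (q'.2 i) := by
      intro i hi
      refine hβ2 (U i) _ _ ?_ (tendsto_nhds_unique (hlim q i) (h2 ▸ hlim q' i))
      refine Prod.ext hi (Prod.ext (congrFun h2 i) ?_)
      exact propext ⟨fun _ => (q'.2 i).1.2.2, fun _ => (q.2 i).1.2.2⟩
    have h4 : ∀ i, cs q i = cs q' i := by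
      intro i
      induction i with
      | zero => rw [hcs0, hcs0, h3]
      | succ i ih => rw [hcs, hcs, step i ih]
    refine Prod.ext h3 (funext fun i => ?_)
    have h5 := step i (h4 i)
    simp only [pk, Prod.mk.injEq] at h5
    exact Prod.ext (Prod.ext h5.2 (Subtype.ext h5.1.2.1)) h5.1.2.2
  · rintro ⟨l, v⟩
    have hl : ∀ i, ∃ x ∈ Icc (-1 : ℝ) 1, Tendsto (fun n => sr (v i n)) (U i).toFilter (𝓝 x) := by
      intro i
      obtain ⟨x, hx, hx'⟩ := isCompact_Icc.ultrafilter_le_nhds
        ((U i).map fun n => sr (v i n))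
        (by
          rw [Ultrafilter.coe_map, le_principal_iff, mem_map]
          exact univ_mem' fun n => Ioo_subset_Icc_self (sr_mem _))
      exact ⟨x, hx, hx'⟩
    choose lam hlam hlam' using hl
    obtain ⟨a, rfl⟩ := hr l
    obtain ⟨p0, hp0, hp0'⟩ := hβA3 a (lam 0) (hlam 0)
    have hstep : ∀ (i : ℕ) (c : Ix → ℝ), ∃ ν : Noise (U i),
        Tendsto (fun n => sr (c n)) (U i).toFilter (𝓝 (lam i)) →
          (fun n => tau (c n) (ν.1.2.1 n) (ν.2 n)) = v i ∧ β (U i) (pk i c ν) = lam (i + 1) := by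
      intro i c
      by_cases hc : Tendsto (fun n => sr (c n)) (U i).toFilter (𝓝 (lam i))
      · obtain ⟨p, hp, hp'⟩ := hβ3 (U i) (c, fun n => sr (v i n) - sr (c n), v i) (lam (i + 1))
          (hlam _)
        simp only [rec1, Prod.mk.injEq] at hp
        have he : Tendsto p.1.2.1 (U i).toFilter (𝓝 0) := by
          rw [hp.2.2]
          simpa using (hlam' i).sub hc
        refine ⟨((p.2, ⟨p.1.2.1, he⟩), p.1.2.2), fun _ => ⟨?_, ?_⟩⟩
        · rw [← hp.1, hp.2.1]
          exact funext fun n => tau_self _ _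
        · rw [← hp', ← hp.1]
      · exact ⟨((0, ⟨0, tendsto_const_nhds⟩), 0), fun h => absurd h hc⟩
    choose ν hν using hstep
    let c : ℕ → Ix → ℝ := fun i => Nat.rec (γA p0) (fun i c => γ (pk i c (ν i c))) i
    have hcq : ∀ i, cs (p0, fun i => ν i (c i)) i = c i := by
      intro i
      induction i with
      | zero => rfl
      | succ i ih => rw [hcs, ih]
    have hinv : ∀ i, Tendsto (fun n => sr (c i n)) (U i).toFilter (𝓝 (lam i)) := by
      intro i
      induction i with
      | zero => exact hp0' ▸ hU0' p0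
      | succ i ih => exact (hν i (c i) ih).2 ▸ hΨU i _
    refine ⟨(p0, fun i => ν i (c i)), Prod.ext hp0 (funext fun i => ?_)⟩
    simp only [w, hcq]
    exact (hν i (c i) (hinv i)).1

end Pool.Agent.MP_1f8704_gt

end

-- part MP_1f8704_gt.Cond
section

/-!
Condensations, and spaces homeomorphic to `C_p(X)` for a countable Tychonoff space `X`.
-/

open Set Topology Filter

namespace Pool.Agent.MP_1f8704_gt

/-- `A` condenses onto `B` -/
def Cond (A B : Type) [TopologicalSpace A] [TopologicalSpace B] : Prop :=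
  ∃ f : A → B, Continuous f ∧ Function.Bijective f

section Cond

variable {A B C D : Type} [TopologicalSpace A] [TopologicalSpace B] [TopologicalSpace C]
  [TopologicalSpace D]

theorem Cond.of_homeo (e : A ≃ₜ B) : Cond A B := ⟨e, e.continuous, e.bijective⟩

theorem Cond.refl (A : Type) [TopologicalSpace A] : Cond A A := Cond.of_homeo (Homeomorph.refl A)

theorem Cond.trans (h : Cond A B) (h' : Cond B C) : Cond A C := by
  obtain ⟨f, hf, hf'⟩ := h
  obtain ⟨g, hg, hg'⟩ := h'
  exact ⟨g ∘ f, hg.comp hf, hg'.comp hf'⟩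

theorem Cond.prod (h : Cond A B) (h' : Cond C D) : Cond (A × C) (B × D) := by
  obtain ⟨f, hf, hf'⟩ := h
  obtain ⟨g, hg, hg'⟩ := h'
  exact ⟨Prod.map f g, hf.prodMap hg, hf'.prodMap hg'⟩

/-- the shift homeomorphism -/
def shift (A : Type) [TopologicalSpace A] : (ℕ → A) ≃ₜ A × (ℕ → A) where
  toFun x := (x 0, fun n => x (n + 1))
  invFun p := fun n => Nat.casesOn n p.1 p.2
  left_inv x := funext fun n => by cases n <;> rfl
  right_inv _ := rfl
  continuous_toFun := by fun_prop
  continuous_invFun := continuous_pi fun n => by cases n <;> simp only <;> fun_prop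

end Cond

theorem t35_sum (X Y : Type) [TopologicalSpace X] [TopologicalSpace Y] [T35Space X]
    [T35Space Y] : T35Space (X ⊕ Y) where
  completely_regular := by
    rintro (x | y) K hK hx
    · obtain ⟨f, hf, h0, h1⟩ := CompletelyRegularSpace.completely_regular x (Sum.inl ⁻¹' K)
        (hK.preimage continuous_inl) hx
      refine ⟨Sum.elim f 1, hf.sumElim continuous_const, h0, ?_⟩
      rintro (a | a) ha
      · exact h1 ha
      · rfl
    · obtain ⟨f, hf, h0, h1⟩ := CompletelyRegularSpace.completely_regular y (Sum.inr ⁻¹' K)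
        (hK.preimage continuous_inr) hx
      refine ⟨Sum.elim 1 f, Continuous.sumElim continuous_const hf, h0, ?_⟩
      rintro (a | a) ha
      · rfl
      · exact h1 ha

theorem t35_sigma {ι : Type} (X : ι → Type) [∀ i, TopologicalSpace (X i)]
    [∀ i, T35Space (X i)] : T35Space (Σ i, X i) where
  completely_regular := by
    classical
    rintro ⟨i, x⟩ K hK hx
    obtain ⟨f, hf, h0, h1⟩ := CompletelyRegularSpace.completely_regular x (Sigma.mk i ⁻¹' K)
      (hK.preimage continuous_sigmaMk) hx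
    refine ⟨fun p => if h : p.1 = i then f (h ▸ p.2) else 1, ?_, by simpa using h0, ?_⟩
    · refine continuous_sigma fun j => ?_
      by_cases h : j = i
      · subst h
        simpa using hf
      · simpa [h] using continuous_const
    · rintro ⟨j, a⟩ ha
      by_cases h : j = i
      · subst h
        simpa using h1 ha
      · simp [h]

theorem Cp.continuous_val {X : Type} [TopologicalSpace X] (x : X) :
    Continuous (fun g : Cp X => (g : X → ℝ) x) :=
  (continuous_apply x).comp continuous_subtype_val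

theorem Cp.continuous_mk {X A : Type} [TopologicalSpace X] [TopologicalSpace A]
    {f : A → Cp X} (h : ∀ x, Continuous fun a => (f a : X → ℝ) x) : Continuous f :=
  continuous_induced_rng.2 (continuous_pi h)

/-- `C_p` of a sum -/
def cpSum (X Y : Type) [TopologicalSpace X] [TopologicalSpace Y] :
    Cp (X ⊕ Y) ≃ₜ Cp X × Cp Y where
  toFun f := (⟨fun x => f.1 (Sum.inl x), Continuous.comp f.2 continuous_inl⟩,
    ⟨fun y => f.1 (Sum.inr y), Continuous.comp f.2 continuous_inr⟩)
  invFun p := ⟨Sum.elim p.1.1 p.2.1, Continuous.sumElim p.1.2 p.2.2⟩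
  left_inv f := Subtype.ext (funext fun x => by cases x <;> rfl)
  right_inv _ := rfl
  continuous_toFun := Continuous.prodMk (Cp.continuous_mk fun x => Cp.continuous_val (Sum.inl x))
    (Cp.continuous_mk fun y => Cp.continuous_val (Sum.inr y))
  continuous_invFun := Cp.continuous_mk fun x => by
    cases x with
    | inl x => exact (Cp.continuous_val x).comp continuous_fst
    | inr x => exact (Cp.continuous_val x).comp continuous_snd

/-- `C_p` of a disjoint union -/
def cpSigma {ι : Type} (X : ι → Type) [∀ i, TopologicalSpace (X i)] :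
    Cp (Σ i, X i) ≃ₜ ∀ i, Cp (X i) where
  toFun f := fun i => ⟨fun x => f.1 ⟨i, x⟩, Continuous.comp f.2 continuous_sigmaMk⟩
  invFun p := ⟨fun x => (p x.1).1 x.2, continuous_sigma fun i => (p i).2⟩
  left_inv _ := rfl
  right_inv _ := rfl
  continuous_toFun := continuous_pi fun _ => Cp.continuous_mk fun _ => Cp.continuous_val _
  continuous_invFun := Cp.continuous_mk fun x =>
    (Cp.continuous_val x.2).comp (continuous_apply x.1)

/-- `C_p` of a point -/
def cpUnit : Cp Unit ≃ₜ ℝ where
  toFun f := f.1 ()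
  invFun t := ⟨fun _ => t, continuous_const⟩
  left_inv _ := rfl
  right_inv _ := rfl
  continuous_toFun := Cp.continuous_val _
  continuous_invFun := Cp.continuous_mk fun _ => continuous_id

/-- the one-point extension of a discrete set along a filter -/
def XF {ι : Type} (_F : Filter ι) : Type := Option ι

/-- functions that converge along the filter to the value at infinity -/
def GoodF {ι : Type} (F : Filter ι) : Type :=
  {f : Option ι → ℝ // Tendsto (fun n => f (some n)) F (𝓝 (f none))}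

/-- evaluation -/
def evF {ι : Type} (F : Filter ι) (x : XF F) (f : GoodF F) : ℝ := f.1 x

instance {ι : Type} (F : Filter ι) : TopologicalSpace (XF F) :=
  TopologicalSpace.induced (evF F) inferInstance

instance {ι : Type} [Countable ι] (F : Filter ι) : Countable (XF F) :=
  inferInstanceAs (Countable (Option ι))

instance {ι : Type} (F : Filter ι) : Nonempty (XF F) := ⟨(none : Option ι)⟩

theorem evF_injective {ι : Type} {F : Filter ι} (hF : F ≤ cofinite) :
    Function.Injective (evF F) := by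
  classical
  have key : ∀ (m : ι) (y : Option ι), evF F (some m) = evF F y → y = some m := by
    intro m y h
    let f : GoodF F := ⟨fun z => if z = some m then 1 else 0, by
      refine tendsto_const_nhds.congr' (hF ?_)
      simp only [mem_cofinite]
      refine (finite_singleton m).subset fun n hn => ?_
      by_contra hne
      apply hn
      have : n ≠ m := hne
      simp [this]⟩
    have := congrFun h f
    by_contra hy
    simp [evF, f, hy] at this
  intro x y h
  cases x with
  | some m => exact (key m y h).symm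
  | none =>
    cases y with
    | none => rfl
    | some m => exact key m none h.symm

theorem t35_XF {ι : Type} {F : Filter ι} (hF : F ≤ cofinite) : T35Space (XF F) :=
  (IsEmbedding.mk (IsInducing.induced _) (evF_injective hF)).t35Space

theorem isInducing_evF {ι : Type} (F : Filter ι) : IsInducing (evF F) := ⟨rfl⟩

/-- the isolated points -/
def XF.pt {ι : Type} (F : Filter ι) (n : ι) : XF F := some n

/-- the point at infinity -/
def XF.inf {ι : Type} (F : Filter ι) : XF F := none

theorem continuous_XF_iff {ι : Type} {F : Filter ι} (f : XF F → ℝ) :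
    Continuous f ↔ Tendsto (fun n => f (some n)) F (𝓝 (f none)) := by
  constructor
  · intro hf
    have : Tendsto (XF.pt F) F (𝓝 (XF.inf F)) := by
      rw [(isInducing_evF F).tendsto_nhds_iff, tendsto_pi_nhds]
      exact fun g => g.2
    exact (hf.tendsto (XF.inf F)).comp this
  · intro h
    exact (continuous_apply (⟨f, h⟩ : GoodF F)).comp (isInducing_evF F).continuous

/-- `C_p` of the one-point extension -/
def cpXF {ι : Type} (F : Filter ι) : Cp (XF F) ≃ₜ ℝ × CF F where
  toFun f := (f.1 none, ⟨fun n => f.1 (some n) - f.1 none, by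
    simpa using ((continuous_XF_iff f.1).1 f.2).sub_const (f.1 none)⟩)
  invFun p := ⟨fun x => Option.elim x p.1 fun n => p.2.1 n + p.1,
    (continuous_XF_iff _).2 (by simpa using p.2.2.add_const p.1)⟩
  left_inv f := Subtype.ext (funext fun x => by cases x <;> simp)
  right_inv p := Prod.ext rfl (Subtype.ext (funext fun n => by simp))
  continuous_toFun := (Cp.continuous_val _).prodMk (Continuous.subtype_mk
    (continuous_pi fun _ => (Cp.continuous_val _).sub (Cp.continuous_val _)) _)
  continuous_invFun := Cp.continuous_mk fun x => by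
    cases x with
    | none => exact continuous_fst
    | some n =>
      exact ((continuous_apply n).comp (continuous_subtype_val.comp continuous_snd)).add
        continuous_fst

/-- `E` is homeomorphic to `C_p(X)` for a nonempty countable Tychonoff space `X` -/
def IsRep (E : Type) [TopologicalSpace E] : Prop :=
  ∃ (X : Type) (_ : TopologicalSpace X), T35Space X ∧ Countable X ∧ Nonempty X ∧
    Nonempty (Cp X ≃ₜ E)

theorem IsRep.real : IsRep ℝ := ⟨Unit, inferInstance, inferInstance, inferInstance, inferInstance,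
  ⟨cpUnit⟩⟩

theorem IsRep.prod {A B : Type} [TopologicalSpace A] [TopologicalSpace B] (h : IsRep A)
    (h' : IsRep B) : IsRep (A × B) := by
  obtain ⟨X, _, _, _, _, ⟨e⟩⟩ := h
  obtain ⟨Y, _, _, _, _, ⟨e'⟩⟩ := h'
  exact ⟨X ⊕ Y, inferInstance, t35_sum X Y, inferInstance, inferInstance,
    ⟨(cpSum X Y).trans (e.prodCongr e')⟩⟩

theorem IsRep.pi {ι : Type} [Countable ι] [Nonempty ι] {A : ι → Type}
    [∀ i, TopologicalSpace (A i)] (h : ∀ i, IsRep (A i)) : IsRep (∀ i, A i) := by
  choose X tX h1 h2 h3 e using h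
  obtain ⟨i⟩ := ‹Nonempty ι›
  obtain ⟨x⟩ := h3 i
  exact ⟨Σ i, X i, inferInstance, t35_sigma X, inferInstance, ⟨⟨i, x⟩⟩,
    ⟨(cpSigma X).trans (Homeomorph.piCongrRight fun i => (e i).some)⟩⟩

theorem IsRep.cf {ι : Type} [Countable ι] {F : Filter ι} (hF : F ≤ cofinite) :
    IsRep (ℝ × CF F) :=
  ⟨XF F, inferInstance, t35_XF hF, inferInstance, inferInstance, ⟨cpXF F⟩⟩

theorem IsRep.noise {U : ℕ → Ultrafilter Ix} (hU : ∀ i, (U i : Filter Ix) ≤ cofinite) :
    IsRep (∀ i, Noise (U i)) :=
  IsRep.pi fun i => (IsRep.cf (hU i)).prod (IsRep.pi fun _ => IsRep.real)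

theorem IsRep.target : IsRep (ℕ → Ix → ℝ) := IsRep.pi fun _ => IsRep.pi fun _ => IsRep.real

/-- the swindle -/
theorem swindle {L P Q S : Type} [TopologicalSpace L] [TopologicalSpace P] [TopologicalSpace Q]
    [TopologicalSpace S] (hP : IsRep P) (hQ : IsRep Q) (hS : IsRep S)
    (h1 : Cond P (L × S)) (h2 : Cond (L × Q) S) :
    ∃ (E : Type) (_ : TopologicalSpace E), IsRep E ∧ Cond E (E × L) ∧ Cond (E × L) E := by
  have eP : (ℕ → P) ≃ₜ P × (ℕ → P) := shift P
  have eQ : (ℕ → Q) ≃ₜ Q × (ℕ → Q) := shift Q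
  have eS : (ℕ → S) ≃ₜ S × (ℕ → S) := shift S
  refine ⟨(ℕ → P) × (ℕ → Q) × (ℕ → S), inferInstance,
    (IsRep.pi fun _ => hP).prod ((IsRep.pi fun _ => hQ).prod (IsRep.pi fun _ => hS)), ?_, ?_⟩
  · refine ((Cond.of_homeo eP).prod (Cond.refl _)).trans ?_
    refine ((h1.prod (Cond.refl _)).prod (Cond.refl _)).trans ?_
    refine Cond.trans (B := ((ℕ → P) × (ℕ → Q) × (S × (ℕ → S))) × L) ?_ ?_
    · refine ⟨fun x => ((x.1.2, x.2.1, x.1.1.2, x.2.2), x.1.1.1), by fun_prop, ?_⟩
      exact Function.bijective_iff_has_inverse.2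
        ⟨fun y => (((y.2, y.1.2.2.1), y.1.1), y.1.2.1, y.1.2.2.2), fun _ => rfl, fun _ => rfl⟩
    · exact ((Cond.refl _).prod ((Cond.refl _).prod (Cond.of_homeo eS.symm))).prod (Cond.refl _)
  · refine (((Cond.refl _).prod ((Cond.of_homeo eQ).prod (Cond.refl _))).prod
      (Cond.refl _)).trans ?_
    refine Cond.trans (B := (ℕ → P) × (ℕ → Q) × ((L × Q) × (ℕ → S))) ?_ ?_
    · refine ⟨fun x => (x.1.1, x.1.2.1.2, (x.2, x.1.2.1.1), x.1.2.2), by fun_prop, ?_⟩
      exact Function.bijective_iff_has_inverse.2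
        ⟨fun y => ((y.1, (y.2.2.1.2, y.2.1), y.2.2.2), y.2.2.1.1), fun _ => rfl, fun _ => rfl⟩
    · refine (Cond.refl _).prod ((Cond.refl _).prod ?_)
      exact (h2.prod (Cond.refl _)).trans (Cond.of_homeo eS.symm)

end Pool.Agent.MP_1f8704_gt

end

-- part MP_1f8704_gt.Surj
section

/-!
For `Z ⊆ 2^ω`, `C_p(Z)` is a continuous image of `C_p(X)` for a countable space `X`.
-/

open Set Topology Filter PiNat

namespace Pool.Agent.MP_1f8704_gt

theorem continuous_res {A : Type} [TopologicalSpace A] {x : A → List Bool → ℝ}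
    (hx : ∀ s, Continuous fun a => x a s) {z : A → ℕ → Bool} (hz : Continuous z) (k : ℕ) :
    Continuous fun a => x a (res (z a) k) := by
  rw [continuous_iff_continuousAt]
  intro a₀
  refine (hx (res (z a₀) k)).continuousAt.congr ?_
  have : z ⁻¹' cylinder (z a₀) k ∈ 𝓝 a₀ :=
    ((isOpen_cylinder (fun _ => Bool) (z a₀) k).preimage hz).mem_nhds (self_mem_cylinder _ _)
  filter_upwards [this] with a ha
  have h : res (z a) k = res (z a₀) k := res_eq_res.2 fun m hm => ha m hm
  rw [h]

variable (Z : Set (ℕ → Bool))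

/-- the filter of sets containing almost all nodes of every branch from `Z` -/
def FZ : Filter (List Bool) := ⨆ z : Z, map (res z.1) atTop

theorem FZ_le : FZ Z ≤ cofinite := by
  refine iSup_le fun z => ?_
  rw [← Nat.cofinite_eq_atTop]
  refine Function.Injective.tendsto_cofinite fun m n h => ?_
  simpa using congrArg List.length h

instance : SecondCountableTopology (CF (FZ Z)) :=
  TopologicalSpace.secondCountableTopology_induced _ (List Bool → ℝ) Subtype.val

instance : T3Space (CF (FZ Z)) :=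
  inferInstanceAs (T3Space {e : List Bool → ℝ // Tendsto e (FZ Z) (𝓝 0)})

/-- one layer of parameters -/
abbrev P1 : Type := (ℝ × CF (FZ Z)) × (List Bool → ℝ)

/-- the cut-off -/
noncomputable def lam (t : ℝ) : ℝ := max 0 (min 1 (|t| - 1))

theorem continuous_lam : Continuous lam := by
  unfold lam
  fun_prop

theorem lam_of_lt {t : ℝ} (h : |t| < 1) : lam t = 0 :=
  max_eq_left (min_le_of_right_le (by linarith))

theorem lam_two : lam 2 = 1 := by
  unfold lam
  norm_num

/-- the terms of the stopped sum -/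
noncomputable def term (q : P1 Z × Z) (n : ℕ) : ℝ :=
  q.1.2 (res q.2.1 n) * ∏ k ∈ Finset.range n, lam (q.1.1.2.1 (res q.2.1 k))

/-- the stopped sum -/
noncomputable def G (q : P1 Z × Z) : ℝ := ∑' n, term Z q n

theorem continuous_x (k : ℕ) : Continuous fun q : P1 Z × Z => q.1.1.2.1 (res q.2.1 k) :=
  continuous_res (x := fun q : P1 Z × Z => q.1.1.2.1) (z := fun q : P1 Z × Z => q.2.1)
    (fun s => (continuous_apply s).comp (continuous_subtype_val.comp (by fun_prop)))
    (by fun_prop) k

theorem continuous_term (n : ℕ) : Continuous fun q => term Z q n := by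
  refine Continuous.mul ?_ (continuous_finsetProd _ fun k _ =>
    continuous_lam.comp (continuous_x Z k))
  exact continuous_res (x := fun q : P1 Z × Z => q.1.2) (z := fun q : P1 Z × Z => q.2.1)
    (fun s => by fun_prop) (by fun_prop) n

theorem term_eq_zero {q : P1 Z × Z} {k n : ℕ} (h : |q.1.1.2.1 (res q.2.1 k)| < 1) (hn : k < n) :
    term Z q n = 0 := by
  unfold term
  rw [Finset.prod_eq_zero (Finset.mem_range.2 hn) (lam_of_lt h), mul_zero]

theorem continuous_G : Continuous (G Z) := by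
  rw [continuous_iff_continuousAt]
  intro q₀
  have h1 : Tendsto (fun n => q₀.1.1.2.1 (res q₀.2.1 n)) atTop (𝓝 0) :=
    (q₀.1.1.2.2.mono_left (le_iSup (fun z : Z => map (res z.1) atTop) q₀.2))
  have h2 : ∀ᶠ n in atTop, |q₀.1.1.2.1 (res q₀.2.1 n)| < 1 :=
    h1.abs.eventually_lt_const (by simp)
  obtain ⟨k, hk⟩ := h2.exists
  have h3 : ContinuousAt (fun q => ∑ n ∈ Finset.range (k + 1), term Z q n) q₀ :=
    (continuous_finsetSum _ fun n _ => continuous_term Z n).continuousAt
  refine h3.congr ?_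
  have : {q : P1 Z × Z | |q.1.1.2.1 (res q.2.1 k)| < 1} ∈ 𝓝 q₀ :=
    (isOpen_lt (continuous_x Z k).abs continuous_const).mem_nhds hk
  filter_upwards [this] with q hq
  refine (tsum_eq_sum fun n hn => term_eq_zero Z hq ?_).symm
  simpa using hn

theorem exists_approx (f : Cp Z) {ε : ℝ} (hε : 0 < ε) :
    ∃ p : P1 Z, ∀ z, |G Z (p, z) - f.1 z| ≤ ε := by
  classical
  let small : List Bool → Prop := fun s => ∀ z z' : Z, res z.1 s.length = s →
    res z'.1 s.length = s → |f.1 z - f.1 z'| ≤ ε
  have hev : ∀ z : Z, ∀ᶠ n in atTop, small (res z.1 n) := by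
    intro z
    have hf : Continuous f.1 := f.2
    have h1 : {y : Z | |f.1 y - f.1 z| < ε / 2} ∈ 𝓝 z :=
      (isOpen_lt (hf.sub continuous_const).abs continuous_const).mem_nhds (by simpa using hε)
    obtain ⟨V, hV, hVs⟩ := (mem_nhds_subtype Z z _).1 h1
    obtain ⟨_, ⟨y, N, rfl⟩, hy, hyV⟩ :=
      (isTopologicalBasis_cylinders fun _ => Bool).mem_nhds_iff.1 hV
    rw [mem_cylinder_iff_eq] at hy
    rw [← hy] at hyV
    filter_upwards [eventually_ge_atTop N] with n hn y y' h h'
    rw [res_length] at h h'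
    have key : ∀ y : Z, res y.1 n = res z.1 n → |f.1 y - f.1 z| < ε / 2 := fun y h =>
      hVs (hyV (cylinder_anti _ hn fun m hm => res_eq_res.1 h hm))
    have e1 := abs_lt.1 (key y h)
    have e2 := abs_lt.1 (key y' h')
    rw [abs_le]
    constructor <;> linarith [e1.1, e1.2, e2.1, e2.2]
  let x : List Bool → ℝ := fun s => if small s then 0 else 2
  have hx : Tendsto x (FZ Z) (𝓝 0) := by
    refine tendsto_iSup.2 fun z => tendsto_map'_iff.2 (tendsto_const_nhds.congr' ?_)
    filter_upwards [hev z] with n hn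
    simp [x, hn]
  let a : List Bool → ℝ := fun s =>
    if small s then (if h : ∃ z : Z, res z.1 s.length = s then f.1 h.choose else 0) else 0
  refine ⟨((0, ⟨x, hx⟩), a), fun z => ?_⟩
  have hex : ∃ n, small (res z.1 n) := (hev z).exists
  have hs : small (res z.1 (Nat.find hex)) := Nat.find_spec hex
  have hG : G Z (((0, ⟨x, hx⟩), a), z) = term Z (((0, ⟨x, hx⟩), a), z) (Nat.find hex) := by
    refine tsum_eq_single _ fun n hn => ?_
    rcases lt_or_gt_of_ne hn with h | h
    · simp [term, a, Nat.find_min hex h]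
    · exact term_eq_zero Z (by simp [x, hs]) h
  have hz : ∃ y : Z, res y.1 (res z.1 (Nat.find hex)).length = res z.1 (Nat.find hex) :=
    ⟨z, by rw [res_length]⟩
  have hT : term Z (((0, ⟨x, hx⟩), a), z) (Nat.find hex) = f.1 hz.choose := by
    have : ∏ k ∈ Finset.range (Nat.find hex), lam (x (res z.1 k)) = 1 :=
      Finset.prod_eq_one fun k hk => by
        simp only [x, Nat.find_min hex (Finset.mem_range.1 hk), if_false, lam_two]
    simp only [term, this, mul_one, a, hs, if_true, hz, dif_pos]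
  rw [hG, hT]
  exact hs _ _ hz.choose_spec (by rw [res_length])

/-- truncation -/
noncomputable def cl (j : ℕ) (t : ℝ) : ℝ := max (-(1 / 2) ^ j) (min ((1 / 2) ^ j) t)

theorem norm_cl_le (j : ℕ) (t : ℝ) : ‖cl j t‖ ≤ (1 / 2) ^ j := by
  have : (0 : ℝ) ≤ (1 / 2) ^ j := by positivity
  rw [Real.norm_eq_abs, abs_le]
  exact ⟨le_max_left _ _, max_le (by linarith) (min_le_left _ _)⟩

theorem cl_eq {j : ℕ} {t : ℝ} (h : |t| ≤ (1 / 2) ^ j) : cl j t = t := by
  unfold cl
  rw [min_eq_right (abs_le.1 h).2, max_eq_right (abs_le.1 h).1]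

/-- the full map -/
noncomputable def H (q : (ℕ → P1 Z) × Z) : ℝ :=
  G Z (q.1 0, q.2) + ∑' j, cl j (G Z (q.1 (j + 1), q.2))

theorem continuous_H : Continuous (H Z) := by
  have hG := continuous_G Z
  refine Continuous.add (by fun_prop) ?_
  refine continuous_tsum (fun j => ?_) summable_geometric_two fun j q => norm_cl_le _ _
  unfold cl
  fun_prop

theorem exists_surj : ∃ r : (ℕ → P1 Z) → Cp Z, Continuous r ∧ Function.Surjective r := by
  have hH := continuous_H Z
  have hG := continuous_G Z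
  refine ⟨fun p => ⟨fun z => H Z (p, z), (by fun_prop : Continuous fun z => H Z (p, z))⟩,
    Cp.continuous_mk fun z => (by fun_prop : Continuous fun p => H Z (p, z)), fun f => ?_⟩
  choose ap hap using fun (g : Cp Z) (j : ℕ) =>
    exists_approx Z g (show (0 : ℝ) < (1 / 2) ^ (j + 1) by positivity)
  let Gc : P1 Z → Cp Z := fun p =>
    ⟨fun z => G Z (p, z), (by fun_prop : Continuous fun z => G Z (p, z))⟩
  obtain ⟨rem, h0, hs⟩ : ∃ rem : ℕ → Cp Z, rem 0 = f ∧
      ∀ j, rem (j + 1) = rem j - Gc (ap (rem j) j) :=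
    ⟨fun j => Nat.rec f (fun j g => g - Gc (ap g j)) j, rfl, fun _ => rfl⟩
  refine ⟨fun j => ap (rem j) j, Subtype.ext (funext fun z => ?_)⟩
  have e1 : ∀ j, G Z (ap (rem j) j, z) = (rem j).1 z - (rem (j + 1)).1 z := by
    intro j
    rw [hs]
    simp [Gc]
  have e2 : ∀ j, |(rem (j + 1)).1 z| ≤ (1 / 2) ^ (j + 1) := by
    intro j
    have := hap (rem j) j z
    rwa [e1, sub_sub_cancel_left, abs_neg] at this
  have e3 : ∀ j, |(rem (j + 1)).1 z - (rem (j + 2)).1 z| ≤ (1 / 2) ^ j := by
    intro j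
    have a1 := e2 j
    have a2 := e2 (j + 1)
    have a3 : (0 : ℝ) ≤ (1 / 2) ^ j := by positivity
    rw [pow_succ] at a1
    rw [pow_succ, pow_succ] at a2
    refine (abs_sub _ _).trans ?_
    linarith
  have e4 : Tendsto (fun j => (rem (j + 1)).1 z) atTop (𝓝 0) := by
    refine squeeze_zero_norm e2 ?_
    exact (tendsto_pow_atTop_nhds_zero_of_lt_one (by norm_num) (by norm_num)).comp
      (tendsto_add_atTop_nat 1)
  have e5 : HasSum (fun j => (rem (j + 1)).1 z - (rem (j + 2)).1 z) ((rem 1).1 z) := by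
    rw [(Summable.of_norm_bounded summable_geometric_two e3).hasSum_iff_tendsto_nat]
    have : ∀ n, ∑ j ∈ Finset.range n, ((rem (j + 1)).1 z - (rem (j + 2)).1 z) =
        (rem 1).1 z - (rem (n + 1)).1 z := fun n =>
      Finset.sum_range_sub' (fun j => (rem (j + 1)).1 z) n
    simp only [this]
    simpa using e4.const_sub ((rem 1).1 z)
  change H Z (fun j => ap (rem j) j, z) = f.1 z
  have e6 : ∀ j, cl j ((rem (j + 1)).1 z - (rem (j + 1 + 1)).1 z) =
      (rem (j + 1)).1 z - (rem (j + 2)).1 z := fun j => cl_eq (e3 j)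
  simp only [H, e1, e6, e5.tsum_eq]
  rw [zero_add, sub_add_cancel, h0]

theorem isRep_P : IsRep (ℕ → P1 Z) :=
  IsRep.pi fun _ => (IsRep.cf (FZ_le Z)).prod (IsRep.pi fun _ => IsRep.real)

end Pool.Agent.MP_1f8704_gt

end

-- part MP_1f8704_gt.Nonlinear
section

/-!
For every `Z ⊆ 2^ω` there is a countable Tychonoff space `X` such that `C_p(X)` and
`C_p(X ⊕ Z)` condense onto each other.
-/

open Set Topology Filter Cardinal

namespace Pool.Agent.MP_1f8704_gt

theorem cond_up (Z : Set (ℕ → Bool)) : ∃ (P : Type) (_ : TopologicalSpace P), IsRep P ∧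
    Cond P (Cp Z × (ℕ → Ix → ℝ)) := by
  obtain ⟨r, hr, hrs⟩ := exists_surj Z
  obtain ⟨U, hU, w, hw, hb⟩ := master (ℕ → P1 Z) (Cp Z) r hrs
  exact ⟨_, inferInstance, ((isRep_P Z).prod IsRep.real).prod (IsRep.noise hU), _,
    (hr.comp (by fun_prop)).prodMk hw, hb⟩

theorem cond_down (Z : Type) [TopologicalSpace Z] [TopologicalSpace.SeparableSpace Z] :
    ∃ (Q : Type) (_ : TopologicalSpace Q), IsRep Q ∧ Cond (Cp Z × Q) (ℕ → Ix → ℝ) := by
  obtain ⟨D, hDc, hD⟩ := TopologicalSpace.exists_countable_dense Z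
  have := hDc.to_subtype
  let g : Cp Z → (D → ℝ) := fun f d => f.1 d
  have hg : Continuous g := continuous_pi fun d => Cp.continuous_val _
  have hinj : Function.Injective g := fun f f' h =>
    Subtype.ext (Continuous.ext_on hD f.2 f'.2 fun d hd => congrFun h ⟨d, hd⟩)
  have : Nonempty (range g) := ⟨⟨g 0, 0, rfl⟩⟩
  obtain ⟨U, hU, w, hw, hb⟩ := master (range g) Unit (fun _ => ())
    (Function.surjective_to_subsingleton _)
  refine ⟨ℝ × ∀ i, Noise (U i), inferInstance, IsRep.real.prod (IsRep.noise hU), ?_⟩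
  have h1 : Cond (Cp Z) (range g) :=
    ⟨rangeFactorization g, hg.subtype_mk _, rangeFactorization_injective.2 hinj,
      rangeFactorization_surjective⟩
  refine (h1.prod (Cond.refl _)).trans ?_
  refine (Cond.of_homeo (Homeomorph.prodAssoc _ _ _).symm).trans ⟨w, hw, ?_, ?_⟩
  · exact fun q q' h => hb.1 (Prod.ext rfl h)
  · intro v
    obtain ⟨q, hq⟩ := hb.2 ((), v)
    exact ⟨q, (Prod.ext_iff.1 hq).2⟩

theorem mutual_cond (Z : Set (ℕ → Bool)) : ∃ (X : Type) (_ : TopologicalSpace X),
    T35Space X ∧ Countable X ∧ Nonempty X ∧ Cond (Cp X) (Cp (X ⊕ Z)) ∧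
      Cond (Cp (X ⊕ Z)) (Cp X) := by
  obtain ⟨P, _, hP, h1⟩ := cond_up Z
  obtain ⟨Q, _, hQ, h2⟩ := cond_down Z
  obtain ⟨E, _, ⟨X, _, hX1, hX2, hX3, ⟨e⟩⟩, h3, h4⟩ := swindle hP hQ IsRep.target h1 h2
  have e' : Cp (X ⊕ Z) ≃ₜ E × Cp Z := (cpSum X Z).trans (e.prodCongr (Homeomorph.refl _))
  exact ⟨X, inferInstance, hX1, hX2, hX3,
    ((Cond.of_homeo e).trans h3).trans (Cond.of_homeo e'.symm),
    ((Cond.of_homeo e').trans h4).trans (Cond.of_homeo e.symm)⟩

theorem analytic_of_countable (X : Type) [TopologicalSpace X] [Countable X] [Nonempty X] :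
    IsAnalyticSpace X := by
  obtain ⟨s, hs⟩ := exists_surjective_nat X
  refine ⟨fun x => s (x 0), continuous_of_discreteTopology.comp (continuous_apply 0), fun x => ?_⟩
  obtain ⟨n, rfl⟩ := hs x
  exact ⟨fun _ => n, rfl⟩

theorem exists_not_range : ∃ Z : Set (ℕ → Bool), Z.Nonempty ∧
    ∀ f : (ℕ → ℕ) → (ℕ → Bool), Continuous f → range f ≠ Z := by
  by_contra h
  push Not at h
  obtain ⟨D, hDc, hD⟩ := TopologicalSpace.exists_countable_dense (ℕ → ℕ)
  have := hDc.to_subtype
  have hB : #(ℕ → Bool) = 𝔠 := by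
    rw [← Cardinal.power_def, mk_bool, mk_nat, two_power_aleph0]
  have h1 : #{f : (ℕ → ℕ) → (ℕ → Bool) // Continuous f} ≤ 𝔠 := by
    refine (mk_le_of_injective (f := fun f => fun d : D => f.1 d) fun f f' h =>
      Subtype.ext (Continuous.ext_on hD f.2 f'.2 fun d hd => congrFun h ⟨d, hd⟩)).trans ?_
    rw [← Cardinal.power_def, hB]
    exact (power_le_power_left continuum_ne_zero (mk_le_aleph0 (α := D))).trans
      continuum_power_aleph0.le
  have h2 : #(Set (ℕ → Bool)) ≤ #(Option {f : (ℕ → ℕ) → (ℕ → Bool) // Continuous f}) := by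
    refine mk_le_of_surjective (f := fun o => Option.elim o ∅ fun f => range f.1) fun Z => ?_
    rcases Z.eq_empty_or_nonempty with rfl | hZ
    · exact ⟨none, rfl⟩
    · obtain ⟨f, hf, hfZ⟩ := h Z hZ
      exact ⟨some ⟨f, hf⟩, hfZ⟩
  rw [mk_set, hB, mk_option] at h2
  have h3 : (2 : Cardinal) ^ 𝔠 ≤ 𝔠 := by
    refine h2.trans ((add_le_add_left h1 1).trans ?_)
    rw [add_one_eq aleph0_le_continuum]
  exact absurd h3 (not_le.2 (cantor _))

theorem not_analytic_sum {X : Type} [TopologicalSpace X] {Z : Set (ℕ → Bool)} (hZ : Z.Nonempty)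
    (h : ∀ f : (ℕ → ℕ) → (ℕ → Bool), Continuous f → range f ≠ Z) :
    ¬ IsAnalyticSpace (X ⊕ Z) := by
  rintro ⟨f, hf, hs⟩
  obtain ⟨z₀, hz₀⟩ := hZ
  let ρ : X ⊕ Z → (ℕ → Bool) := Sum.elim (fun _ => z₀) Subtype.val
  have hρ : Continuous ρ := Continuous.sumElim continuous_const continuous_subtype_val
  refine h (ρ ∘ f) (hρ.comp hf) ?_
  rw [hs.range_comp]
  ext y
  constructor
  · rintro ⟨x | z, rfl⟩
    · exact hz₀
    · exact z.2
  · exact fun hy => ⟨Sum.inr ⟨y, hy⟩, rfl⟩

end Pool.Agent.MP_1f8704_gt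

end
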